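import Pool.Agent.MWA.Stmts

/-!
# Squad MWA, row USE: the base exchanges at given blocks
-/

set_option autoImplicit false

namespace Pool.Agent.MWA.H5

open Pool.Agent.Helper14_MV Pool.Agent.Helper2_MV Pool.Agent.MVO Pool.Agent.MWL Pool.Agent.MWS
open Pool.Agent.MWA

theorem psh_v2 (r i p q t : ℕ) : psh 1 (fun t => if t = 0 then r else i) (v2 p q) t =
    (if t = r then p else 0) + (if t = i then q else 0) := by
  simp [psh, Finset.sum_range_succ, v2, eq_comm]

theorem psh_v3 (r r' i p q s t : ℕ) :
    psh 2 (fun t => if t = 0 then r else if t = 1 then r' else i) (v3 p q s) t =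
    (if t = r then p else 0) + (if t = r' then q else 0) + (if t = i then s else 0) := by
  simp [psh, Finset.sum_range_succ, v3, eq_comm]

theorem psh_v4 (r r' r'' i p q s u t : ℕ) :
    psh 3 (fun t => if t = 0 then r else if t = 1 then r' else if t = 2 then r'' else i)
      (v4 p q s u) t =
    (if t = r then p else 0) + (if t = r' then q else 0) + (if t = r'' then s else 0) +
      (if t = i then u else 0) := by
  simp [psh, Finset.sum_range_succ, v4, eq_comm]

theorem deg_v2 (p q : ℕ) : deg 1 (v2 p q) = p + q := by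
  simp [deg, Finset.sum_range_succ, v2]

theorem deg_v3 (p q s : ℕ) : deg 2 (v3 p q s) = p + q + s := by
  simp [deg, Finset.sum_range_succ, v3]

theorem deg_v4 (p q s u : ℕ) : deg 3 (v4 p q s u) = p + q + s + u := by
  simp [deg, Finset.sum_range_succ, v4]

theorem lst_v2 {p q : ℕ} (h : 0 < q) : Lst 1 (v2 p q) 1 :=
  ⟨le_rfl, by simp only [v2]; simp; omega, fun j h1 h2 => by omega⟩

theorem lst_v3 {p q s : ℕ} (h : 0 < s) : Lst 2 (v3 p q s) 2 :=
  ⟨le_rfl, by simp only [v3]; simp; omega, fun j h1 h2 => by omega⟩

theorem lst_v4 {p q s u : ℕ} (h : 0 < u) : Lst 3 (v4 p q s u) 3 :=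
  ⟨le_rfl, by simp only [v4]; simp; omega, fun j h1 h2 => by omega⟩

/-- **USE** -/
theorem use (hbtu : BtuStmt) : UseStmt := by
  intro θ hθ
  refine ⟨?_, ?_, ?_⟩
  · intro p q p' q' k r i a b hq hq' h2 h2' hB hri hik ha hb
    have hm : BMap 1 k (fun t => if t = 0 then r else i) := by
      constructor
      · intro x y hxy hy
        split_ifs <;> omega
      · intro x hx
        split_ifs <;> omega
    have h := hbtu θ hθ 1 k (fun t => if t = 0 then r else i) (v2 p q) (v2 p' q') a b 1 hm
      (by rw [deg_v2]; exact h2) (by rw [deg_v2]; exact h2') (lst_v2 hq) (lst_v2 hq') hB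
      (fun t ht => by rw [psh_v2]; exact ha t ht) (fun t ht => by rw [psh_v2]; exact hb t ht)
    exact h
  · intro p q s p' q' s' k r r' i a b hs hs' h2 h2' hB hr hr' hik ha hb
    have hm : BMap 2 k (fun t => if t = 0 then r else if t = 1 then r' else i) := by
      constructor
      · intro x y hxy hy
        split_ifs <;> omega
      · intro x hx
        split_ifs <;> omega
    have h := hbtu θ hθ 2 k (fun t => if t = 0 then r else if t = 1 then r' else i) (v3 p q s)
      (v3 p' q' s') a b 2 hm
      (by rw [deg_v3]; exact h2) (by rw [deg_v3]; exact h2') (lst_v3 hs) (lst_v3 hs') hB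
      (fun t ht => by rw [psh_v3]; exact ha t ht) (fun t ht => by rw [psh_v3]; exact hb t ht)
    exact h
  · intro p q s u p' q' s' u' k r r' r'' i a b hu hu' h2 h2' hB hr hr' hr'' hik ha hb
    have hm : BMap 3 k (fun t => if t = 0 then r else if t = 1 then r' else
        if t = 2 then r'' else i) := by
      constructor
      · intro x y hxy hy
        split_ifs <;> omega
      · intro x hx
        split_ifs <;> omega
    have h := hbtu θ hθ 3 k (fun t => if t = 0 then r else if t = 1 then r' else
      if t = 2 then r'' else i) (v4 p q s u) (v4 p' q' s' u') a b 3 hm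
      (by rw [deg_v4]; exact h2) (by rw [deg_v4]; exact h2') (lst_v4 hu) (lst_v4 hu') hB
      (fun t ht => by rw [psh_v4]; exact ha t ht) (fun t ht => by rw [psh_v4]; exact hb t ht)
    exact h

end Pool.Agent.MWA.H5
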